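import Mathlib
import Pool.Agent.Helper26.VC.Chow
import Pool.Agent.Helper83.VF.Kill

/-!
# The curve lemma
A symmetric function of `m > g` points of a curve of genus `g` which vanishes on the cycles
rationally equivalent to zero on the `m`-fold self-product, and which vanishes if one of the points
is the base point, is zero.
-/

set_option linter.unusedSectionVars false

namespace Pool.Agent.Helper17.IR

open VC

universe u

/-- The curve lemma, with values in a torsion free group. -/
theorem curve_lemma' {k F : Type u} [Field k] [IsAlgClosed k] [CharZero k] [Field F] [Algebra k F]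
    (hF : IsFunctionField k F) {g : ℕ} (hg : ∀ D : Place k F →₀ ℤ,
      (D.sum fun _ m => m) + 1 ≤ (Module.finrank k (riemannRochSpace k F D) : ℤ) + g)
    {m : ℕ} (hm : g < m) (o : Place k F) {M : Type*} [AddCommGroup M] [IsAddTorsionFree M]
    {ψ : (Fin m → Place k F) → M}
    (hψ : ∀ z ∈ ((curve hF).pow m).Rat, Finsupp.linearCombination ℤ ψ z = 0)
    (hsym : ∀ (σ : Equiv.Perm (Fin m)) (P : Fin m → Place k F), ψ (P ∘ σ) = ψ P)
    (ho : ∀ P i, P i = o → ψ P = 0) (P : Fin m → Place k F) : ψ P = 0 := by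
  classical
  have hle : g + 1 ≤ m := hm
  let ι : Fin (g + 1) ↪ Fin m := Fin.castLEEmb hle
  let ins : (Fin (g + 1) → Place k F) → (Fin m → Place k F) := fun x i =>
    if h : ∃ j, ι j = i then x h.choose else P i
  have hins1 : ∀ x j, ins x (ι j) = x j := by
    intro x j
    have h : ∃ j', ι j' = ι j := ⟨j, rfl⟩
    have h2 : h.choose = j := ι.injective h.choose_spec
    simp only [ins]
    rw [dif_pos h, h2]
  have hins2 : ∀ x i, (¬ ∃ j, ι j = i) → ins x i = P i := by
    intro x i hi
    simp only [ins]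
    rw [dif_neg hi]
  have hperm : ∀ (x : Fin (g + 1) → Place k F) (τ : Equiv.Perm (Fin (g + 1))),
      ins (x ∘ τ) = ins x ∘ (τ.viaEmbedding ι) := by
    intro x τ
    funext i
    by_cases hi : ∃ j, ι j = i
    · obtain ⟨j, rfl⟩ := hi
      rw [hins1, Function.comp_apply, Function.comp_apply, Equiv.Perm.viaEmbedding_apply, hins1]
    · rw [hins2 _ _ hi, Function.comp_apply, Equiv.Perm.viaEmbedding_apply_of_notMem,
        hins2 _ _ hi]
      rintro ⟨j, hj⟩
      exact hi ⟨j, hj⟩
  obtain ⟨y, ⟨j, hj⟩, hy⟩ := move_sum hF g hg (by simp) ((curve hF).pow m) ins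
    (fun K _ _ hK z => by
      refine ⟨fun i => if h : ∃ j, ι j = i then z h.choose else Sum.inl (P i), fun v => ?_⟩
      funext i
      by_cases hi : ∃ j, ι j = i
      · simp only [ins]
        rw [dif_pos hi, dif_pos hi]
      · simp only [ins]
        rw [dif_neg hi, dif_neg hi]) (fun j => P (ι j)) o
  rw [cl_eq_iff] at hy
  obtain ⟨c, hc, hmem⟩ := hy
  have h1 := hψ _ hmem
  rw [map_nsmul, map_sub, map_sum, map_sum] at h1
  have hx : ∀ τ : Equiv.Perm (Fin (g + 1)), Finsupp.linearCombination ℤ ψ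
      (Finsupp.single (ins ((fun j => P (ι j)) ∘ τ)) 1) = ψ P := by
    intro τ
    rw [Finsupp.linearCombination_single, one_smul, hperm, hsym]
    congr 1
    funext i
    by_cases hi : ∃ j, ι j = i
    · obtain ⟨j, rfl⟩ := hi
      exact hins1 (fun j => P (ι j)) j
    · exact hins2 (fun j => P (ι j)) i hi
  have hy0 : ∀ τ : Equiv.Perm (Fin (g + 1)), Finsupp.linearCombination ℤ ψ
      (Finsupp.single (ins (y ∘ τ)) 1) = 0 := by
    intro τ
    rw [Finsupp.linearCombination_single, one_smul, hperm, hsym]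
    apply ho _ (ι j)
    rw [hins1, hj]
  rw [Finset.sum_congr rfl (fun τ _ => hx τ), Finset.sum_congr rfl (fun τ _ => hy0 τ),
    Finset.sum_const, Finset.sum_const_zero, sub_zero, ← mul_nsmul] at h1
  by_contra hne
  have h2 : Finset.univ.card (α := Equiv.Perm (Fin (g + 1))) * c ≠ 0 := by
    apply Nat.mul_ne_zero
    · exact Finset.card_ne_zero_of_mem (Finset.mem_univ 1)
    · exact hc.ne'
  exact hne ((nsmul_eq_zero_iff_right h2).mp h1)

/-- The curve lemma. -/
theorem curve_lemma {k F : Type u} [Field k] [IsAlgClosed k] [CharZero k] [Field F] [Algebra k F]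
    (hF : IsFunctionField k F) {g : ℕ} (hg : IsGenus k F g) {m : ℕ} (hm : g < m)
    (o : Place k F) {ψ : (Fin m → Place k F) → k} (hψ : VF.Kills ((curve hF).pow m) ψ)
    (hsym : ∀ (σ : Equiv.Perm (Fin m)) (P : Fin m → Place k F), ψ (P ∘ σ) = ψ P)
    (ho : ∀ P i, P i = o → ψ P = 0) (P : Fin m → Place k F) : ψ P = 0 := by
  have : IsAddTorsionFree k := by
    infer_instance
  exact curve_lemma' hF hg.1 hm o hψ hsym ho P

end Pool.Agent.Helper17.IR
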