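import Mathlib

/-!
# Project IR (MP_83b46e_ag), block G: modules over the symmetric group (greedy lemma, Cauchy, Littlewood)

`T` a finite set, `V` an additive group without torsion with an action `ρ` of `Perm T`, `P ⊆ V` a stable subgroup.
`al ρ Y` and `sy ρ Y` are the alternating and the symmetric sum over the permutations of `Y ⊆ T`.
-/

set_option autoImplicit false
set_option linter.unusedSectionVars false
set_option linter.unusedSimpArgs false

namespace Pool.Agent.Helper17.IR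

open Equiv Finset

section ps

variable {T : Type*} [Fintype T] [DecidableEq T]

/-- The permutations with support in `Y`. -/
def PS (Y : Finset T) : Finset (Perm T) := univ.filter fun σ => ∀ x, x ∉ Y → σ x = x

lemma mem_PS {Y : Finset T} {σ : Perm T} : σ ∈ PS Y ↔ ∀ x, x ∉ Y → σ x = x := by
  simp [PS]

lemma one_mem_PS (Y : Finset T) : (1 : Perm T) ∈ PS Y := mem_PS.2 fun _ _ => rfl

lemma mul_mem_PS {Y : Finset T} {σ τ : Perm T} (hσ : σ ∈ PS Y) (hτ : τ ∈ PS Y) : σ * τ ∈ PS Y :=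
  mem_PS.2 fun x hx => by rw [Perm.mul_apply, mem_PS.1 hτ x hx, mem_PS.1 hσ x hx]

lemma swap_mem_PS {Y : Finset T} {x y : T} (hx : x ∈ Y) (hy : y ∈ Y) : swap x y ∈ PS Y :=
  mem_PS.2 fun _ hz => swap_apply_of_ne_of_ne (fun h => hz (h ▸ hx)) (fun h => hz (h ▸ hy))

lemma PS_mono {Y Y' : Finset T} (h : Y ⊆ Y') {σ : Perm T} (hσ : σ ∈ PS Y) : σ ∈ PS Y' :=
  mem_PS.2 fun x hx => mem_PS.1 hσ x fun h' => hx (h h')

lemma PS_apply_mem {Y : Finset T} {σ : Perm T} (hσ : σ ∈ PS Y) {x : T} (hx : x ∈ Y) : σ x ∈ Y := by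
  by_contra h
  have h1 := mem_PS.1 hσ _ h
  have h2 := σ.injective h1
  rw [h2] at h
  exact h hx

lemma PS_empty : PS (∅ : Finset T) = {1} := by
  ext σ
  rw [mem_PS, mem_singleton]
  constructor
  · intro h
    ext x
    exact h x (notMem_empty x)
  · rintro rfl x _
    rfl

/-- The cosets of `Sym Y` in `Sym (Y ∪ {y})`. -/
lemma sum_PS_insert {A : Type*} [AddCommMonoid A] {Y : Finset T} {y : T} (hy : y ∉ Y) (f : Perm T → A) :
    ∑ σ ∈ PS (insert y Y), f σ = ∑ x ∈ insert y Y, ∑ σ ∈ PS Y, f (swap x y * σ) := by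
  rw [← Finset.sum_product']
  symm
  refine Finset.sum_bij' (fun p _ => swap p.1 y * p.2) (fun σ _ => (σ y, swap (σ y) y * σ)) ?_ ?_ ?_ ?_ ?_
  · rintro ⟨x, σ⟩ h
    rw [mem_product] at h
    exact mul_mem_PS (swap_mem_PS h.1 (mem_insert_self _ _)) (PS_mono (subset_insert _ _) h.2)
  · intro σ hσ
    rw [mem_product]
    refine ⟨PS_apply_mem hσ (mem_insert_self _ _), mem_PS.2 fun x hx => ?_⟩
    rw [Perm.mul_apply]
    by_cases hxy : x = y
    · rw [hxy, swap_apply_left]
    · have h1 : σ x = x := mem_PS.1 hσ x fun h => by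
        rcases mem_insert.1 h with h | h
        · exact hxy h
        · exact hx h
      rw [h1]
      refine swap_apply_of_ne_of_ne (fun h => ?_) hxy
      rw [← h1] at h
      exact hxy (σ.injective h)
  · rintro ⟨x, σ⟩ h
    rw [mem_product] at h
    have h1 : σ y = y := mem_PS.1 h.2 y hy
    have h2 : (swap x y * σ) y = x := by rw [Perm.mul_apply, h1, swap_apply_right]
    refine Prod.ext h2 ?_
    simp only [h2]
    rw [← mul_assoc, swap_mul_self, one_mul]
  · intro σ hσ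
    simp only
    rw [← mul_assoc, swap_mul_self, one_mul]
  · intro p _
    rfl

/-- The permutations of `W` which preserve the colouring. -/
def YG (W : Finset T) (κ : T → ℕ) : Finset (Perm T) :=
  univ.filter fun σ => (∀ x, x ∉ W → σ x = x) ∧ ∀ x, κ (σ x) = κ x

lemma mem_YG {W : Finset T} {κ : T → ℕ} {σ : Perm T} :
    σ ∈ YG W κ ↔ (∀ x, x ∉ W → σ x = x) ∧ ∀ x, κ (σ x) = κ x := by
  simp [YG]

/-- The decomposition of the group of the colouring. -/
lemma sum_YG {A : Type*} [AddCommMonoid A] {W Y : Finset T} (hY : Y ⊆ W) {c : ℕ} (κ : T → ℕ)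
    (hκ : ∀ x ∈ W \ Y, κ x < c) (f : Perm T → A) :
    ∑ σ ∈ YG W (fun x => if x ∈ Y then c else κ x), f σ = ∑ σ ∈ YG (W \ Y) κ, ∑ τ ∈ PS Y, f (σ * τ) := by
  classical
  rw [← Finset.sum_product']
  symm
  refine Finset.sum_bij (fun p _ => p.1 * p.2) ?_ ?_ ?_ ?_
  · rintro ⟨σ, τ⟩ h
    rw [mem_product] at h
    obtain ⟨h1, h2⟩ := mem_YG.1 h.1
    have h3 := h.2
    refine mem_YG.2 ⟨fun x hx => ?_, fun x => ?_⟩
    · rw [Perm.mul_apply, mem_PS.1 h3 x fun h => hx (hY h), h1 x fun h => hx (mem_sdiff.1 h).1]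
    · rw [Perm.mul_apply]
      by_cases hx : x ∈ Y
      · have h4 : τ x ∈ Y := PS_apply_mem h3 hx
        have h5 : σ (τ x) = τ x := h1 _ fun h => (mem_sdiff.1 h).2 h4
        rw [h5, if_pos h4, if_pos hx]
      · rw [mem_PS.1 h3 x hx]
        have h4 : σ x ∉ Y := by
          intro h4
          have h5 : σ (σ x) = σ x := h1 _ fun h => (mem_sdiff.1 h).2 h4
          rw [σ.injective h5] at h4
          exact hx h4
        rw [if_neg h4, if_neg hx, h2]
  · rintro ⟨σ, τ⟩ h ⟨σ', τ'⟩ h' he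
    rw [mem_product] at h h'
    simp only at he
    obtain ⟨h1, -⟩ := mem_YG.1 h.1
    obtain ⟨h1', -⟩ := mem_YG.1 h'.1
    have ht : τ = τ' := by
      ext x
      by_cases hx : x ∈ Y
      · have h2 := congrArg (fun g : Perm T => g x) he
        simp only [Perm.mul_apply] at h2
        rw [h1 _ fun h0 => (mem_sdiff.1 h0).2 (PS_apply_mem h.2 hx),
          h1' _ fun h0 => (mem_sdiff.1 h0).2 (PS_apply_mem h'.2 hx)] at h2
        exact h2
      · rw [mem_PS.1 h.2 x hx, mem_PS.1 h'.2 x hx]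
    subst ht
    rw [mul_right_cancel he]
  · intro σ hσ
    obtain ⟨h1, h2⟩ := mem_YG.1 hσ
    have h3 : ∀ x, x ∈ Y ↔ σ x ∈ Y := by
      intro x
      constructor
      · intro hx
        by_contra hx'
        have h4 := h2 x
        rw [if_pos hx, if_neg hx'] at h4
        have h5 : σ x ∈ W := by
          by_contra h5
          have := σ.injective (h1 _ h5)
          rw [this] at h5
          exact h5 (hY hx)
        have := hκ _ (mem_sdiff.2 ⟨h5, hx'⟩)
        omega
      · intro hx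
        by_contra hx'
        have h4 := h2 x
        rw [if_neg hx', if_pos hx] at h4
        have h5 : x ∈ W := by
          by_contra h5
          rw [h1 x h5] at hx
          exact hx' hx
        have := hκ _ (mem_sdiff.2 ⟨h5, hx'⟩)
        omega
    let τ : Perm T := Perm.ofSubtype (σ.subtypePerm (p := fun x => x ∈ Y) fun x => (h3 x).symm)
    have hτ1 : ∀ x ∈ Y, τ x = σ x := fun x hx => by
      simp only [τ]
      rw [Perm.ofSubtype_apply_of_mem _ hx]
      rfl
    have hτ2 : ∀ x, x ∉ Y → τ x = x := fun x hx => Perm.ofSubtype_apply_of_not_mem _ hx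
    have hτP : τ ∈ PS Y := mem_PS.2 hτ2
    have hai : ∀ x, τ (τ⁻¹ x) = x := fun x => τ.apply_symm_apply x
    have hia : ∀ x, τ⁻¹ (τ x) = x := fun x => τ.symm_apply_apply x
    have hτi1 : ∀ x ∈ Y, ∃ z ∈ Y, x = τ z := by
      intro x hx
      refine ⟨τ⁻¹ x, ?_, (hai x).symm⟩
      by_contra hz
      have := hτ2 _ hz
      rw [hai] at this
      rw [← this] at hz
      exact hz hx
    have hinv : ∀ x, x ∉ Y → τ⁻¹ x = x := fun x hx => by
      rw [Perm.inv_eq_iff_eq, hτ2 x hx]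
    refine ⟨(σ * τ⁻¹, τ), ?_, ?_⟩
    · rw [mem_product]
      refine ⟨mem_YG.2 ⟨fun x hx => ?_, fun x => ?_⟩, hτP⟩
      · rw [Perm.mul_apply]
        by_cases hxY : x ∈ Y
        · obtain ⟨z, hz, rfl⟩ := hτi1 x hxY
          rw [hia, hτ1 z hz]
        · rw [hinv x hxY]
          exact h1 x fun h => hx (mem_sdiff.2 ⟨h, hxY⟩)
      · rw [Perm.mul_apply]
        by_cases hxY : x ∈ Y
        · obtain ⟨z, hz, rfl⟩ := hτi1 x hxY
          rw [hia, hτ1 z hz]
        · rw [hinv x hxY]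
          have h4 := h2 x
          have h5 : σ x ∉ Y := fun h => hxY ((h3 x).2 h)
          rw [if_neg hxY, if_neg h5] at h4
          exact h4
    · simp
  · rintro p _
    rfl

end ps

section rep

variable {T : Type*} [Fintype T] [DecidableEq T] {V : Type*} [AddCommGroup V]
  (ρ : Perm T →* AddMonoid.End V)

/-- The alternating sum over the permutations of `Y`. -/
def al (Y : Finset T) (m : V) : V := ∑ σ ∈ PS Y, ((Perm.sign σ : ℤˣ) : ℤ) • ρ σ m

/-- The symmetric sum over the permutations of `Y`. -/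
def sy (Y : Finset T) (m : V) : V := ∑ σ ∈ PS Y, ρ σ m

/-- The alternating sum over the permutations of `W` which preserve the colouring. -/
def yl (W : Finset T) (κ : T → ℕ) (m : V) : V := ∑ σ ∈ YG W κ, ((Perm.sign σ : ℤˣ) : ℤ) • ρ σ m

lemma rho_mul (σ τ : Perm T) (m : V) : ρ (σ * τ) m = ρ σ (ρ τ m) := by
  rw [map_mul]; rfl

lemma rho_one (m : V) : ρ 1 m = m := by
  rw [map_one]; rfl

variable {ρ}

lemma al_add (Y : Finset T) (m m' : V) : al ρ Y (m + m') = al ρ Y m + al ρ Y m' := by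
  unfold al
  rw [← Finset.sum_add_distrib]
  exact Finset.sum_congr rfl fun σ _ => by rw [map_add, smul_add]

lemma al_neg (Y : Finset T) (m : V) : al ρ Y (-m) = - al ρ Y m := by
  unfold al
  rw [← Finset.sum_neg_distrib]
  exact Finset.sum_congr rfl fun σ _ => by rw [map_neg, smul_neg]

lemma al_zero (Y : Finset T) : al ρ Y (0 : V) = 0 := by
  unfold al
  exact Finset.sum_eq_zero fun σ _ => by rw [map_zero, smul_zero]

lemma al_insert {Y : Finset T} {y : T} (hy : y ∉ Y) (m : V) :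
    al ρ (insert y Y) m = al ρ Y m - ∑ x ∈ Y, ρ (swap x y) (al ρ Y m) := by
  have key : ∀ x : T, x ≠ y → ∑ σ ∈ PS Y, ((Perm.sign (swap x y * σ) : ℤˣ) : ℤ) • ρ (swap x y * σ) m =
      - ρ (swap x y) (al ρ Y m) := by
    intro x hx
    rw [al, map_sum, ← Finset.sum_neg_distrib]
    refine Finset.sum_congr rfl fun σ _ => ?_
    rw [Perm.sign_mul, Perm.sign_swap hx, rho_mul, map_zsmul, Units.val_mul, Units.val_neg, Units.val_one,
      neg_one_mul, neg_smul]
  rw [al, sum_PS_insert hy, Finset.sum_insert hy, swap_self, sub_eq_add_neg, ← Finset.sum_neg_distrib]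
  congr 1
  exact Finset.sum_congr rfl fun x hx => key x fun h => hy (h ▸ hx)

lemma sy_insert {Y : Finset T} {y : T} (hy : y ∉ Y) (m : V) :
    sy ρ (insert y Y) m = sy ρ Y m + ∑ x ∈ Y, ρ (swap x y) (sy ρ Y m) := by
  rw [sy, sum_PS_insert hy, Finset.sum_insert hy, swap_self]
  congr 1
  refine Finset.sum_congr rfl fun x _ => ?_
  rw [sy, map_sum]
  exact Finset.sum_congr rfl fun σ _ => rho_mul ρ _ _ _

lemma al_eq_zero_of_subset {Y Y' : Finset T} (h : Y ⊆ Y') {m : V} (hm : al ρ Y m = 0) : al ρ Y' m = 0 := by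
  obtain ⟨Z, hZ⟩ : ∃ Z, Z = Y' \ Y := ⟨_, rfl⟩
  have hY' : Y' = Z ∪ Y := by rw [hZ, sdiff_union_of_subset h]
  rw [hY']
  clear hZ hY' h Y'
  induction Z using Finset.induction_on with
  | empty => rwa [empty_union]
  | insert z Z hz ih =>
    rw [insert_union]
    by_cases h : z ∈ Z ∪ Y
    · rwa [insert_eq_of_mem h]
    · rw [al_insert h, ih]
      simp

lemma sy_eq_zero_of_subset {Y Y' : Finset T} (h : Y ⊆ Y') {m : V} (hm : sy ρ Y m = 0) : sy ρ Y' m = 0 := by
  obtain ⟨Z, hZ⟩ : ∃ Z, Z = Y' \ Y := ⟨_, rfl⟩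
  have hY' : Y' = Z ∪ Y := by rw [hZ, sdiff_union_of_subset h]
  rw [hY']
  clear hZ hY' h Y'
  induction Z using Finset.induction_on with
  | empty => rwa [empty_union]
  | insert z Z hz ih =>
    rw [insert_union]
    by_cases h : z ∈ Z ∪ Y
    · rwa [insert_eq_of_mem h]
    · rw [sy_insert h, ih]
      simp

lemma comm_PS {Y W : Finset T} (hd : Disjoint Y W) {σ τ : Perm T} (hσ : σ ∈ PS Y) (hτ : τ ∈ PS W) :
    τ * σ = σ * τ := by
  ext x
  rw [Perm.mul_apply, Perm.mul_apply]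
  by_cases hx : x ∈ Y
  · rw [mem_PS.1 hτ x (Finset.disjoint_left.1 hd hx), mem_PS.1 hτ _ (Finset.disjoint_left.1 hd (PS_apply_mem hσ hx))]
  · rw [mem_PS.1 hσ x hx]
    by_cases hx' : x ∈ W
    · rw [mem_PS.1 hσ _ (Finset.disjoint_right.1 hd (PS_apply_mem hτ hx'))]
    · rw [mem_PS.1 hτ x hx', mem_PS.1 hσ x hx]

lemma al_comm {Y W : Finset T} (hd : Disjoint Y W) {τ : Perm T} (hτ : τ ∈ PS W) (m : V) :
    ρ τ (al ρ Y m) = al ρ Y (ρ τ m) := by
  unfold al
  rw [map_sum]
  refine Finset.sum_congr rfl fun σ hσ => ?_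
  rw [map_zsmul, ← rho_mul, ← rho_mul, comm_PS hd hσ hτ]

lemma yl_eq {W Y : Finset T} (hY : Y ⊆ W) {c : ℕ} (κ : T → ℕ) (hκ : ∀ x ∈ W \ Y, κ x < c) (m : V) :
    yl ρ W (fun x => if x ∈ Y then c else κ x) m = yl ρ (W \ Y) κ (al ρ Y m) := by
  rw [yl, sum_YG hY κ hκ, yl]
  refine Finset.sum_congr rfl fun σ _ => ?_
  rw [al, map_sum, Finset.smul_sum]
  refine Finset.sum_congr rfl fun τ _ => ?_
  rw [Perm.sign_mul, rho_mul, map_zsmul, smul_smul, Units.val_mul]

/-- THE GREEDY LEMMA. -/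
theorem greedy (htf : ∀ (n : ℕ) (v : V), n ≠ 0 → n • v = 0 → v = 0) (b : ℕ) :
    ∀ (n : ℕ) (W : Finset T), W.card = n → ∀ P : AddSubgroup V, (∀ σ ∈ PS W, ∀ m ∈ P, ρ σ m ∈ P) →
    (∃ m ∈ P, m ≠ 0) → (∀ Y ⊆ W, b < Y.card → ∀ m ∈ P, al ρ Y m = 0) →
    ∃ (c : ℕ) (κ : T → ℕ) (Z : Finset T), (∀ x ∈ W, κ x < c) ∧ (∃ m ∈ P, yl ρ W κ m ≠ 0) ∧ Z ⊆ W ∧
      Z.card = c ∧ (∃ m ∈ P, sy ρ Z m ≠ 0) ∧ W.card ≤ b * c := by
  classical
  intro n
  induction n using Nat.strong_induction_on with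
  | _ n ih =>
  intro W hW P hst hne hb
  obtain ⟨m0, hm0, hm0'⟩ := hne
  by_cases hW0 : W = ∅
  · refine ⟨0, fun _ => 0, ∅, ?_, ⟨m0, hm0, ?_⟩, Finset.empty_subset _, rfl, ⟨m0, hm0, ?_⟩, ?_⟩
    · rw [hW0]; intro x hx; exact absurd hx (notMem_empty x)
    · have h1 : YG W (fun _ => 0) = {1} := by
        ext σ
        rw [mem_YG, mem_singleton, hW0]
        constructor
        · rintro ⟨h, -⟩
          ext x
          exact h x (notMem_empty x)
        · rintro rfl
          exact ⟨fun _ _ => rfl, fun _ => rfl⟩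
      rw [yl, h1, Finset.sum_singleton, Perm.sign_one, rho_one]
      simpa using hm0'
    · rw [sy, PS_empty, Finset.sum_singleton, rho_one]
      exact hm0'
    · rw [hW0]; simp
  · -- the largest part
    obtain ⟨w0, hw0⟩ := Finset.nonempty_iff_ne_empty.2 hW0
    have h1 : al ρ {w0} m0 = m0 := by
      have h2 := al_insert (ρ := ρ) (notMem_empty w0) m0
      rw [insert_empty_eq] at h2
      rw [h2, Finset.sum_empty, sub_zero, al, PS_empty, Finset.sum_singleton, Perm.sign_one, rho_one]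
      simp
    have hS : ((W.powerset).filter fun Y => ∃ m ∈ P, al ρ Y m ≠ 0).Nonempty := by
      refine ⟨{w0}, ?_⟩
      rw [mem_filter, mem_powerset, singleton_subset_iff]
      exact ⟨hw0, m0, hm0, by rw [h1]; exact hm0'⟩
    obtain ⟨Y, hYS, hYmax⟩ := Finset.exists_max_image _ Finset.card hS
    rw [mem_filter, mem_powerset] at hYS
    obtain ⟨hYW, m1, hm1, hm1'⟩ := hYS
    have hYb : Y.card ≤ b := by
      by_contra h
      exact hm1' (hb Y hYW (not_le.1 h) m1 hm1)
    have hYpos : 0 < Y.card := by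
      have h2 := hYmax {w0} (by
        rw [mem_filter, mem_powerset, singleton_subset_iff]
        exact ⟨hw0, m0, hm0, by rw [h1]; exact hm0'⟩)
      rw [card_singleton] at h2
      omega
    -- the smaller group
    let P' : AddSubgroup V :=
      { carrier := {v | ∃ m ∈ P, al ρ Y m = v}
        add_mem' := by
          rintro _ _ ⟨m, hm, rfl⟩ ⟨m', hm', rfl⟩
          exact ⟨m + m', add_mem hm hm', al_add _ _ _⟩
        zero_mem' := ⟨0, P.zero_mem, al_zero _⟩
        neg_mem' := by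
          rintro _ ⟨m, hm, rfl⟩
          exact ⟨-m, neg_mem hm, al_neg _ _⟩ }
    have hP'P : ∀ v ∈ P', v ∈ P := by
      rintro _ ⟨m, hm, rfl⟩
      exact P.sum_mem fun σ hσ => P.zsmul_mem (hst σ (PS_mono hYW hσ) m hm) _
    have hdis : Disjoint Y (W \ Y) := disjoint_sdiff
    have hst' : ∀ σ ∈ PS (W \ Y), ∀ v ∈ P', ρ σ v ∈ P' := by
      rintro σ hσ _ ⟨m, hm, rfl⟩
      exact ⟨ρ σ m, hst σ (PS_mono sdiff_subset hσ) m hm, (al_comm hdis hσ m).symm⟩
    have hcard : (W \ Y).card < n := by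
      rw [card_sdiff_of_subset hYW, hW]
      have := card_le_card hYW
      omega
    obtain ⟨c, κ, Z, hκ, ⟨v1, ⟨m2, hm2, rfl⟩, hv1⟩, hZW, hZc, ⟨v2, hv2P, hv2⟩, hle⟩ :=
      ih _ hcard (W \ Y) rfl P' hst' ⟨_, ⟨m1, hm1, rfl⟩, hm1'⟩
        fun Y' hY' hb' v hv => hb Y' (hY'.trans sdiff_subset) hb' v (hP'P v hv)
    -- the exchange relation
    have hex : ∀ u ∈ P', ∀ z ∈ W \ Y, ∑ x ∈ Y, ρ (swap x z) u = u := by
      rintro _ ⟨m, hm, rfl⟩ z hz
      have hzY : z ∉ Y := (mem_sdiff.1 hz).2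
      have h2 : al ρ (insert z Y) m = 0 := by
        by_contra h3
        have h4 := hYmax (insert z Y) (by
          rw [mem_filter, mem_powerset]
          exact ⟨insert_subset (mem_sdiff.1 hz).1 hYW, m, hm, h3⟩)
        rw [card_insert_of_notMem hzY] at h4
        omega
      rw [al_insert hzY, sub_eq_zero] at h2
      exact h2.symm
    obtain ⟨u, hu⟩ : ∃ u, u = sy ρ Z v2 := ⟨_, rfl⟩
    have huP : u ∈ P' := by
      rw [hu]
      exact P'.sum_mem fun σ hσ => hst' σ (PS_mono hZW hσ) v2 hv2P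
    have hsum : ∑ y ∈ Y, sy ρ (insert y Z) v2 = (Y.card + Z.card) • u := by
      have h2 : ∀ y ∈ Y, sy ρ (insert y Z) v2 = u + ∑ z ∈ Z, ρ (swap z y) u := by
        intro y hy
        have hyZ : y ∉ Z := fun h => (mem_sdiff.1 (hZW h)).2 hy
        rw [sy_insert hyZ, ← hu]
      rw [Finset.sum_congr rfl h2, Finset.sum_add_distrib, Finset.sum_const, Finset.sum_comm, add_smul]
      congr 1
      have h3 : ∀ z ∈ Z, ∑ y ∈ Y, ρ (swap z y) u = u := by
        intro z hz
        rw [← hex u huP z (hZW hz)]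
        refine Finset.sum_congr rfl fun y _ => ?_
        rw [hex u huP z (hZW hz), swap_comm]
      rw [Finset.sum_congr rfl h3, Finset.sum_const]
    have hne2 : ∃ y ∈ Y, sy ρ (insert y Z) v2 ≠ 0 := by
      by_contra hcon
      push Not at hcon
      rw [Finset.sum_eq_zero hcon] at hsum
      exact hv2 (hu ▸ htf _ _ (by omega) hsum.symm)
    obtain ⟨y, hy, hy'⟩ := hne2
    have hyZ : y ∉ Z := fun h => (mem_sdiff.1 (hZW h)).2 hy
    refine ⟨c + 1, fun x => if x ∈ Y then c else κ x, insert y Z, ?_, ⟨m2, hm2, ?_⟩, ?_, ?_, ⟨v2, hP'P v2 hv2P, hy'⟩, ?_⟩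
    · intro x hx
      by_cases hxY : x ∈ Y
      · simp only [hxY, if_true]; omega
      · simp only [hxY, if_false]
        have := hκ x (mem_sdiff.2 ⟨hx, hxY⟩)
        omega
    · rw [yl_eq hYW κ hκ]
      exact hv1
    · exact insert_subset (hYW hy) (hZW.trans sdiff_subset)
    · rw [card_insert_of_notMem hyZ, hZc]
    · have h2 : W.card = (W \ Y).card + Y.card := (card_sdiff_add_card_eq_card hYW).symm
      rw [h2, mul_add, mul_one]
      omega

/-- CAUCHY. -/
theorem cauchy (htf : ∀ (n : ℕ) (v : V), n ≠ 0 → n • v = 0 → v = 0) (a b : ℕ) (P : AddSubgroup V)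
    (hst : ∀ (σ : Perm T), ∀ m ∈ P, ρ σ m ∈ P) (hne : ∃ m ∈ P, m ≠ 0)
    (hsy : ∀ Z : Finset T, Z.card = a + 1 → ∀ m ∈ P, sy ρ Z m = 0)
    (hal : ∀ Y : Finset T, Y.card = b + 1 → ∀ m ∈ P, al ρ Y m = 0) : Fintype.card T ≤ a * b := by
  obtain ⟨c, κ, Z, -, -, -, hZc, ⟨v, hv, hv'⟩, hle⟩ := greedy htf b _ (univ : Finset T) rfl P
    (fun σ _ m hm => hst σ m hm) hne fun Y _ hY m hm => by
      obtain ⟨Y', hY', hc⟩ := exists_subset_card_eq hY
      exact al_eq_zero_of_subset hY' (hal Y' hc m hm)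
  have hca : c ≤ a := by
    by_contra h
    obtain ⟨Z', hZ', hc⟩ := exists_subset_card_eq (s := Z) (n := a + 1) (by omega)
    exact hv' (sy_eq_zero_of_subset hZ' (hsy Z' hc v hv))
  rw [card_univ] at hle
  calc Fintype.card T ≤ b * c := hle
    _ ≤ b * a := Nat.mul_le_mul_left b hca
    _ = a * b := mul_comm _ _

lemma yl_univ_smul {κ : T → ℕ} {s : Perm T} (hs : ∀ x, κ (s x) = κ x) (m : V) :
    yl ρ univ κ (ρ s m) = ((Perm.sign s : ℤˣ) : ℤ) • yl ρ univ κ m := by
  have hs' : ∀ x, κ (s⁻¹ x) = κ x := fun x => by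
    have h1 := hs (s⁻¹ x)
    have h2 : s (s⁻¹ x) = x := s.apply_symm_apply x
    rw [h2] at h1
    exact h1.symm
  rw [yl, yl, Finset.smul_sum]
  refine Finset.sum_bij' (fun σ _ => σ * s) (fun σ _ => σ * s⁻¹) ?_ ?_ ?_ ?_ ?_
  · intro σ hσ
    rw [mem_YG] at hσ ⊢
    exact ⟨fun x hx => absurd (mem_univ x) hx, fun x => by rw [Perm.mul_apply, hσ.2, hs]⟩
  · intro σ hσ
    rw [mem_YG] at hσ ⊢
    exact ⟨fun x hx => absurd (mem_univ x) hx, fun x => by rw [Perm.mul_apply, hσ.2, hs']⟩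
  · intro σ _; simp
  · intro σ _; simp
  · intro σ _
    rw [← rho_mul, Perm.sign_mul, smul_smul, Units.val_mul]
    congr 1
    rcases Int.units_eq_one_or (Perm.sign s) with h | h <;> rw [h] <;> simp

/-- LITTLEWOOD. -/
theorem littlewood (htf : ∀ (n : ℕ) (v : V), n ≠ 0 → n • v = 0 → v = 0) {n : ℕ} (g : ℕ)
    (p : Fin n → Fin 2 → T) (hp : ∀ i j e e', p i e = p j e' → i = j ∧ e = e') (m : V) (hm : m ≠ 0)
    (h1 : ∀ i, ρ (swap (p i 0) (p i 1)) m = m)
    (h2 : ∀ i j, i ≠ j → ρ (swap (p i 0) (p j 0) * swap (p i 1) (p j 1)) m = - m)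
    (hsy : ∀ Z : Finset T, Z.card = g + 1 → ∀ τ : Perm T, sy ρ Z (ρ τ m) = 0) : 2 * n ≤ g * (g - 1) := by
  classical
  let P : AddSubgroup V := AddSubgroup.closure (Set.range fun τ : Perm T => ρ τ m)
  have hst : ∀ σ ∈ PS (univ : Finset T), ∀ v ∈ P, ρ σ v ∈ P := by
    intro σ _ v hv
    induction hv using AddSubgroup.closure_induction with
    | mem x hx =>
      obtain ⟨τ, rfl⟩ := hx
      exact AddSubgroup.subset_closure ⟨σ * τ, rho_mul ρ _ _ _⟩
    | zero => rw [map_zero]; exact P.zero_mem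
    | add x y _ _ hx hy => rw [map_add]; exact P.add_mem hx hy
    | neg x _ hx => rw [map_neg]; exact P.neg_mem hx
  obtain ⟨c, κ, Z, hκ, ⟨v1, hv1P, hv1⟩, -, hZc, ⟨v, hv, hv'⟩, -⟩ := greedy htf (Fintype.card T) _
    (univ : Finset T) rfl P hst ⟨m, AddSubgroup.subset_closure ⟨1, rho_one ρ m⟩, hm⟩ fun Y _ hY => by
      exact absurd (card_le_univ Y) (not_le.2 hY)
  have hcg : c ≤ g := by
    by_contra h
    obtain ⟨Z', hZ', hc⟩ := exists_subset_card_eq (s := Z) (n := g + 1) (by omega)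
    apply hv'
    apply sy_eq_zero_of_subset hZ'
    clear hv'
    induction hv using AddSubgroup.closure_induction with
    | mem x hx =>
      obtain ⟨τ, rfl⟩ := hx
      exact hsy Z' hc τ
    | zero => rw [sy]; simp
    | add x y _ _ hx hy =>
      rw [sy] at hx hy ⊢
      simp only [map_add, Finset.sum_add_distrib, hx, hy, add_zero]
    | neg x _ hx =>
      rw [sy] at hx ⊢
      simp only [map_neg, Finset.sum_neg_distrib, hx, neg_zero]
  -- a permutation
  obtain ⟨τ, hτ⟩ : ∃ τ : Perm T, yl ρ univ κ (ρ τ m) ≠ 0 := by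
    by_contra hcon
    push Not at hcon
    apply hv1
    clear hv1
    induction hv1P using AddSubgroup.closure_induction with
    | mem x hx =>
      obtain ⟨τ, rfl⟩ := hx
      exact hcon τ
    | zero => rw [yl]; simp
    | add x y _ _ hx hy =>
      rw [yl] at hx hy ⊢
      simp only [map_add, smul_add, Finset.sum_add_distrib, hx, hy, add_zero]
    | neg x _ hx =>
      rw [yl] at hx ⊢
      simp only [map_neg, smul_neg, Finset.sum_neg_distrib, hx, neg_zero]
  have hzero : ∀ v : V, v = - v → v = 0 := fun v hv => htf 2 v two_ne_zero (by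
    rw [two_smul]; nth_rewrite 2 [hv]; exact add_neg_cancel v)
  have hconj : ∀ x y : T, swap (τ x) (τ y) * τ = τ * swap x y := fun x y => by
    rw [Equiv.swap_apply_apply]; group
  -- no pair of one colour
  have hA : ∀ i, κ (τ (p i 0)) ≠ κ (τ (p i 1)) := by
    intro i h
    apply hτ
    have hpi : p i 0 ≠ p i 1 := fun h0 => absurd (hp _ _ _ _ h0).2 (by decide)
    have hs : ∀ x, κ (swap (τ (p i 0)) (τ (p i 1)) x) = κ x := by
      intro x
      rw [swap_apply_def]
      split_ifs with h3 h4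
      · rw [h3, h]
      · rw [h4, h]
      · rfl
    have h3 := yl_univ_smul (ρ := ρ) hs (ρ τ m)
    rw [← rho_mul, hconj, rho_mul, h1 i, Perm.sign_swap (fun h0 => hpi (τ.injective h0))] at h3
    apply hzero
    simpa using h3
  have hB : ∀ i j, i ≠ j → ¬ (κ (τ (p i 0)) = κ (τ (p j 0)) ∧ κ (τ (p i 1)) = κ (τ (p j 1))) ∧
      ¬ (κ (τ (p i 0)) = κ (τ (p j 1)) ∧ κ (τ (p i 1)) = κ (τ (p j 0))) := by
    intro i j hij
    have hne : ∀ e e', τ (p i e) ≠ τ (p j e') := fun e e' h0 => hij (hp _ _ _ _ (τ.injective h0)).1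
    have hs : ∀ x y : T, κ x = κ y → ∀ z, κ (swap x y z) = κ z := by
      intro x y h z
      rw [swap_apply_def]
      split_ifs with h3 h4
      · rw [h3, h]
      · rw [h4, h]
      · rfl
    constructor
    · rintro ⟨h3, h4⟩
      apply hτ
      have h5 : ∀ x, κ ((swap (τ (p i 0)) (τ (p j 0)) * swap (τ (p i 1)) (τ (p j 1))) x) = κ x := fun x => by
        rw [Perm.mul_apply, hs _ _ h3, hs _ _ h4]
      have h6 := yl_univ_smul (ρ := ρ) h5 (ρ τ m)
      rw [← rho_mul, mul_assoc, hconj, ← mul_assoc, hconj, mul_assoc, rho_mul, h2 i j hij, Perm.sign_mul,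
        Perm.sign_swap (hne 0 0), Perm.sign_swap (hne 1 1)] at h6
      apply hzero
      have h7 : yl ρ univ κ (ρ τ (-m)) = - yl ρ univ κ (ρ τ m) := by
        rw [yl, yl, ← Finset.sum_neg_distrib]
        refine Finset.sum_congr rfl fun σ _ => ?_
        rw [map_neg, map_neg, smul_neg]
      rw [h7] at h6
      have h8 : -yl ρ univ κ (ρ τ m) = yl ρ univ κ (ρ τ m) := by simpa using h6
      exact h8.symm
    · rintro ⟨h3, h4⟩
      apply hτ
      have h5 : ∀ x, κ ((swap (τ (p i 0)) (τ (p j 1)) * swap (τ (p i 1)) (τ (p j 0))) x) = κ x := fun x => by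
        rw [Perm.mul_apply, hs _ _ h3, hs _ _ h4]
      have h6 := yl_univ_smul (ρ := ρ) h5 (ρ τ m)
      have hq : swap (p i 0) (p j 1) * swap (p i 1) (p j 0) =
          (swap (p i 0) (p j 0) * swap (p i 1) (p j 1)) * (swap (p i 0) (p i 1) * swap (p j 0) (p j 1)) := by
        have n1 : p i 0 ≠ p i 1 := fun h0 => absurd (hp _ _ _ _ h0).2 (by decide)
        have n2 : p j 0 ≠ p j 1 := fun h0 => absurd (hp _ _ _ _ h0).2 (by decide)
        have n3 : p i 0 ≠ p j 0 := fun h0 => hij (hp _ _ _ _ h0).1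
        have n4 : p i 0 ≠ p j 1 := fun h0 => hij (hp _ _ _ _ h0).1
        have n5 : p i 1 ≠ p j 0 := fun h0 => hij (hp _ _ _ _ h0).1
        have n6 : p i 1 ≠ p j 1 := fun h0 => hij (hp _ _ _ _ h0).1
        ext x
        simp only [Perm.mul_apply, swap_apply_def]
        by_cases e1 : x = p i 0
        · subst e1; simp [n1, n2, n3, n4, n5, n6, n1.symm, n2.symm, n3.symm, n4.symm, n5.symm, n6.symm]
        by_cases e2 : x = p i 1
        · subst e2; simp [n1, n2, n3, n4, n5, n6, n1.symm, n2.symm, n3.symm, n4.symm, n5.symm, n6.symm]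
        by_cases e3 : x = p j 0
        · subst e3; simp [n1, n2, n3, n4, n5, n6, n1.symm, n2.symm, n3.symm, n4.symm, n5.symm, n6.symm]
        by_cases e4 : x = p j 1
        · subst e4; simp [n1, n2, n3, n4, n5, n6, n1.symm, n2.symm, n3.symm, n4.symm, n5.symm, n6.symm]
        simp [e1, e2, e3, e4]
      rw [← rho_mul, mul_assoc, hconj, ← mul_assoc, hconj, mul_assoc, rho_mul, hq, rho_mul ρ _ _ m, rho_mul ρ _ _ m,
        h1 j, h1 i, h2 i j hij, Perm.sign_mul, Perm.sign_swap (hne 0 1), Perm.sign_swap (hne 1 0)] at h6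
      apply hzero
      have h7 : yl ρ univ κ (ρ τ (-m)) = - yl ρ univ κ (ρ τ m) := by
        rw [yl, yl, ← Finset.sum_neg_distrib]
        refine Finset.sum_congr rfl fun σ _ => ?_
        rw [map_neg, map_neg, smul_neg]
      rw [h7] at h6
      have h8 : -yl ρ univ κ (ρ τ m) = yl ρ univ κ (ρ τ m) := by simpa using h6
      exact h8.symm
  -- counting
  have hcount : n ≤ c.choose 2 := by
    have hinj : Function.Injective (fun i : Fin n => ({κ (τ (p i 0)), κ (τ (p i 1))} : Finset ℕ)) := by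
      intro i j h
      by_contra hij
      obtain ⟨h3, h4⟩ := hB i j hij
      simp only at h
      have e1 : κ (τ (p i 0)) ∈ ({κ (τ (p j 0)), κ (τ (p j 1))} : Finset ℕ) := by rw [← h]; simp
      have e2 : κ (τ (p i 1)) ∈ ({κ (τ (p j 0)), κ (τ (p j 1))} : Finset ℕ) := by rw [← h]; simp
      rw [mem_insert, mem_singleton] at e1 e2
      have hi := hA i
      rcases e1 with e1 | e1 <;> rcases e2 with e2 | e2
      · exact hi (e1.trans e2.symm)
      · exact h3 ⟨e1, e2⟩
      · exact h4 ⟨e1, e2⟩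
      · exact hi (e1.trans e2.symm)
    have hmaps : ∀ i : Fin n, ({κ (τ (p i 0)), κ (τ (p i 1))} : Finset ℕ) ∈ (range c).powersetCard 2 := by
      intro i
      rw [mem_powersetCard]
      refine ⟨?_, card_pair (hA i)⟩
      intro x hx
      rw [mem_insert, mem_singleton] at hx
      rw [mem_range]
      rcases hx with rfl | rfl
      · exact hκ _ (mem_univ _)
      · exact hκ _ (mem_univ _)
    have h3 := Finset.card_le_card_of_injOn (s := (univ : Finset (Fin n))) (t := (range c).powersetCard 2)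
      (fun i => ({κ (τ (p i 0)), κ (τ (p i 1))} : Finset ℕ)) (fun i _ => hmaps i) (fun i _ j _ h => hinj h)
    rw [card_univ, Fintype.card_fin, card_powersetCard, card_range] at h3
    exact h3
  have h3 : 2 * c.choose 2 = c * (c - 1) := by
    rw [Nat.choose_two_right]
    exact Nat.mul_div_cancel' (Nat.even_mul_pred_self c).two_dvd
  calc 2 * n ≤ 2 * c.choose 2 := Nat.mul_le_mul_left 2 hcount
    _ = c * (c - 1) := h3
    _ ≤ g * (g - 1) := Nat.mul_le_mul hcg (Nat.sub_le_sub_right hcg 1)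

end rep

end Pool.Agent.Helper17.IR
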