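import Mathlib
import Pool.Agent.Helper26.VC.Cycles

/-!
# IR: quotients of products of two hyperelliptic curves by an involution, the groups
-/

namespace Pool.Agent.Helper35.IR

open VC

universe u

section

variable {k F : Type u} [Field k] [Field F] [Algebra k F]

/-- Commuting involutions `h`, `s` of the curve with function field `F`, such that the quotient by `h` is rational. -/
structure Hyp (h s : F ≃ₐ[k] F) : Prop where
  h2 : h * h = 1
  s2 : s * s = 1
  comm : h * s = s * h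
  hne : h ≠ 1
  sne : s ≠ 1
  hs : s ≠ h
  rat : IsGenus k (IntermediateField.fixedField (Subgroup.zpowers h)) 0

/-- The group generated by `s` and `h`. -/
def Kl (h s : F ≃ₐ[k] F) : Subgroup (F ≃ₐ[k] F) := Subgroup.closure {h, s}

lemma mem_Kl (h s : F ≃ₐ[k] F) : s ∈ Kl h s := Subgroup.subset_closure (by simp)

/-- The group of order two generated by `(s, t)`. -/
def Gst {F₁ F₂ : Type u} [Field F₁] [Algebra k F₁] [Field F₂] [Algebra k F₂] (h₁ s₁ : F₁ ≃ₐ[k] F₁)
    (h₂ s₂ : F₂ ≃ₐ[k] F₂) : Subgroup (Kl h₁ s₁ × Kl h₂ s₂) :=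
  Subgroup.zpowers (⟨s₁, mem_Kl h₁ s₁⟩, ⟨s₂, mem_Kl h₂ s₂⟩)

end

end Pool.Agent.Helper35.IR
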