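import Mathlib
import Pool.Agent.Helper9.NS
import Pool.Agent.Helper70.BQ.FinalH
import Pool.Agent.Helper70.VP.Main
import Pool.Agent.Helper17.FF.Genus
import Pool.Agent.Helper17.IR.HypDefs

/-!
# IR: quotients of products of two hyperelliptic curves by an involution
-/

set_option linter.unusedSectionVars false

namespace Pool.Agent.Helper35.IR

open VC VQ BQ

universe u

section

variable {k F : Type u} [Field k] [Field F] [Algebra k F]

/-- the four elements -/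
private def el17 (h s : F ≃ₐ[k] F) : Fin 4 → (F ≃ₐ[k] F) := ![1, s, h, s * h]

/-- multiplication by `s` -/
private def sw17 : Fin 4 → Fin 4 := ![1, 0, 3, 2]

/-- the subgroups -/
private def wt17 (h s : F ≃ₐ[k] F) : Fin 4 → Subgroup (F ≃ₐ[k] F) :=
  ![⊥, Subgroup.zpowers h, Subgroup.zpowers s, Subgroup.zpowers (s * h)]

/-- the table -/
private def tb17 : Fin 4 → Fin 4 → Bool :=
  ![![true, false, false, false], ![true, false, true, false], ![true, true, false, false],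
    ![true, false, false, true]]

variable {h s : F ≃ₐ[k] F}

private lemma mem_zp17 {M : Type*} [Group M] {x y : M} (hx : x * x = 1) :
    y ∈ Subgroup.zpowers x ↔ y = 1 ∨ y = x := by
  constructor
  · intro hy
    obtain ⟨n, rfl⟩ := Subgroup.mem_zpowers_iff.mp hy
    have h2 : x ^ (2 : ℤ) = 1 := by rw [zpow_two, hx]
    rcases Int.even_or_odd' n with ⟨m, rfl | rfl⟩
    · left
      rw [zpow_mul, h2, one_zpow]
    · right
      rw [zpow_add, zpow_mul, h2, one_zpow, one_mul, zpow_one]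
  · rintro (rfl | rfl)
    · exact Subgroup.one_mem _
    · exact Subgroup.mem_zpowers _

private lemma sh_sq17 (H : Hyp h s) : (s * h) * (s * h) = 1 := by
  rw [mul_assoc, ← mul_assoc h s h, H.comm, mul_assoc s h h, H.h2, mul_one, H.s2]

private lemma sw_el17 (H : Hyp h s) (i : Fin 4) : s * el17 h s i = el17 h s (sw17 i) := by
  fin_cases i
  · exact mul_one s
  · exact H.s2
  · rfl
  · change s * (s * h) = h
    rw [← mul_assoc, H.s2, one_mul]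

private lemma tb_mem17 (H : Hyp h s) (i j : Fin 4) :
    el17 h s j ∈ wt17 h s i ↔ tb17 i j = true := by
  have n1 : s * h ≠ 1 := by
    intro h1
    apply H.hs
    have := congrArg (fun x => x * h) h1
    simp only [mul_assoc, H.h2, mul_one, one_mul] at this
    exact this
  have n2 : s * h ≠ s := fun h1 => H.hne (by simpa using h1)
  have n3 : s * h ≠ h := fun h1 => H.sne (by simpa using h1)
  have e0 : ∀ y : F ≃ₐ[k] F, y ∈ wt17 h s 0 ↔ y = 1 := fun y => Subgroup.mem_bot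
  have e1 : ∀ y : F ≃ₐ[k] F, y ∈ wt17 h s 1 ↔ y = 1 ∨ y = h := fun y => mem_zp17 H.h2
  have e2 : ∀ y : F ≃ₐ[k] F, y ∈ wt17 h s 2 ↔ y = 1 ∨ y = s := fun y => mem_zp17 H.s2
  have e3 : ∀ y : F ≃ₐ[k] F, y ∈ wt17 h s 3 ↔ y = 1 ∨ y = s * h := fun y =>
    mem_zp17 (sh_sq17 H)
  have f0 : el17 h s 0 = 1 := rfl
  have f1 : el17 h s 1 = s := rfl
  have f2 : el17 h s 2 = h := rfl
  have f3 : el17 h s 3 = s * h := rfl
  have g1 : h ≠ 1 := H.hne
  have g2 : s ≠ 1 := H.sne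
  have g3 : s ≠ h := H.hs
  fin_cases i <;> fin_cases j <;>
    simp only [Fin.zero_eta, Fin.mk_one, Fin.reduceFinMk, e0, e1, e2, e3, f0, f1, f2, f3] <;>
    simp [tb17, n1, n2, n3, n2.symm, n3.symm, g1, g2, g3, g3.symm]

/-- multiplication by `h` -/
private def hw17 : Fin 4 → Fin 4 := ![2, 3, 0, 1]

private lemma hw_el17 (H : Hyp h s) (i : Fin 4) : h * el17 h s i = el17 h s (hw17 i) := by
  fin_cases i
  · exact mul_one h
  · exact H.comm
  · exact H.h2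
  · change h * (s * h) = s
    rw [← mul_assoc, H.comm, mul_assoc, H.h2, mul_one]

private lemma el_s17 (H : Hyp h s) (i : Fin 4) : el17 h s i * s = s * el17 h s i := by
  fin_cases i
  · exact (one_mul s).trans (mul_one s).symm
  · rfl
  · exact H.comm
  · change s * h * s = s * (s * h)
    rw [mul_assoc, H.comm]

private lemma el_sq17 (H : Hyp h s) (i : Fin 4) : el17 h s i * el17 h s i = 1 := by
  fin_cases i
  · exact mul_one 1
  · exact H.s2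
  · exact H.h2
  · exact sh_sq17 H

/-- the group of the four elements -/
private def sub17 (H : Hyp h s) : Subgroup (F ≃ₐ[k] F) where
  carrier := Set.range (el17 h s)
  one_mem' := ⟨0, rfl⟩
  mul_mem' := by
    rintro _ _ ⟨i, rfl⟩ ⟨j, rfl⟩
    fin_cases i
    · exact ⟨j, (one_mul _).symm⟩
    · exact ⟨_, (sw_el17 H j).symm⟩
    · exact ⟨_, (hw_el17 H j).symm⟩
    · refine ⟨sw17 (hw17 j), ?_⟩
      rw [← sw_el17 H, ← hw_el17 H, ← mul_assoc]
      rfl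
  inv_mem' := by
    rintro _ ⟨i, rfl⟩
    exact ⟨i, (inv_eq_of_mul_eq_one_left (el_sq17 H i)).symm⟩

private lemma kl_le17 (H : Hyp h s) : Kl h s ≤ sub17 H := by
  unfold Kl
  rw [Subgroup.closure_le]
  rintro x (rfl | rfl)
  · exact ⟨2, rfl⟩
  · exact ⟨1, rfl⟩

private lemma four17 (H : Hyp h s) (v : Kl h s) : ∃ i, v.1 = el17 h s i := by
  obtain ⟨i, hi⟩ := kl_le17 H v.2
  exact ⟨i, hi.symm⟩

private lemma finite17 (H : Hyp h s) : Finite (Kl h s) := by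
  have h1 : ((Kl h s : Subgroup (F ≃ₐ[k] F)) : Set (F ≃ₐ[k] F)).Finite :=
    (Set.finite_range (el17 h s)).subset (kl_le17 H)
  exact h1.to_subtype

private lemma inj17 (H : Hyp h s) : Function.Injective (el17 h s) := by
  intro i j hij
  have h1 : ∀ l, tb17 l i = tb17 l j := by
    intro l
    rw [Bool.eq_iff_iff, ← tb_mem17 H, ← tb_mem17 H, hij]
  have key : ∀ i j : Fin 4, (∀ l, tb17 l i = tb17 l j) → i = j := by decide
  exact key i j h1

private lemma wt_le17 (i : Fin 4) : wt17 h s i ≤ Kl h s := by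
  have hh : h ∈ Kl h s := Subgroup.subset_closure (by simp)
  fin_cases i
  · exact bot_le
  · exact (Subgroup.zpowers_le).mpr hh
  · exact (Subgroup.zpowers_le).mpr (mem_Kl h s)
  · exact (Subgroup.zpowers_le).mpr (Subgroup.mul_mem _ (mem_Kl h s) hh)

/-- the subgroups with the trivial character -/
private def sc17 (h s : F ≃ₐ[k] F) (i : Fin 4) : SubChar k (Kl h s) :=
  ⟨(wt17 h s i).subgroupOf (Kl h s), 1⟩

private lemma range17 (i : Fin 4) : (sc17 h s i).act.range = wt17 h s i := by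
  unfold SubChar.act
  rw [← MonoidHom.map_range, Subgroup.range_subtype]
  exact (Subgroup.subgroupOf_map_subtype _ _).trans (inf_eq_left.mpr (wt_le17 i))

private lemma kind17 {g : Fin 4 → ℕ}
    (hg : ∀ i, IsGenus k (IntermediateField.fixedField (wt17 h s i)) (g i)) (i : Fin 4) :
    Kind (sc17 h s i).act (sc17 h s i).char (g i) (g i) := by
  refine Kind.triv rfl ?_ rfl
  rw [range17]
  exact hg i

private lemma ext17 (H : Hyp h s) (i e : Fin 4) (v : Kl h s) (hv : v.1 = el17 h s e) :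
    (sc17 h s i).ext v = ((if tb17 i e then (1 : ℤ) else 0 : ℤ) : k) := by
  unfold SubChar.ext
  have h1 : v ∈ (sc17 h s i).grp ↔ tb17 i e = true := by
    rw [← tb_mem17 H, ← hv]
    exact Subgroup.mem_subgroupOf
  by_cases h2 : tb17 i e = true
  · rw [dif_pos (h1.mpr h2), if_pos h2]
    change (((1 : kˣ) : kˣ) : k) = _
    simp
  · rw [dif_neg (fun h3 => h2 (h1.mp h3)), if_neg h2]
    simp

end

/-- the coefficients -/
private def cz17 : Fin 7 → ℤ := ![2, 2, -1, -1, -1, 1, 1]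

/-- the first subgroups -/
private def ixa17 : Fin 7 → Fin 4 := ![1, 0, 1, 1, 2, 2, 3]

/-- the second subgroups -/
private def ixb17 : Fin 7 → Fin 4 := ![0, 1, 1, 2, 1, 2, 3]

private lemma id17 : ∀ e e' : Fin 4, ∑ l : Fin 7, cz17 l *
    ((if tb17 (ixa17 l) e then (1 : ℤ) else 0) * (if tb17 (ixb17 l) e' then (1 : ℤ) else 0) +
      (if tb17 (ixa17 l) (sw17 e) then (1 : ℤ) else 0) *
        (if tb17 (ixb17 l) (sw17 e') then (1 : ℤ) else 0)) =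
    if (e = 0 ∧ e' = 0) ∨ (e = 1 ∧ e' = 1) then 4 else 0 := by
  decide

section

variable {k F₁ F₂ : Type u} [Field k] [Field F₁] [Algebra k F₁] [Field F₂] [Algebra k F₂]
  {h₁ s₁ : F₁ ≃ₐ[k] F₁} {h₂ s₂ : F₂ ≃ₐ[k] F₂}

private lemma coset17 (H₁ : Hyp h₁ s₁) (H₂ : Hyp h₂ s₂) (i j e e' : Fin 4)
    (v : Kl h₁ s₁ × Kl h₂ s₂) (hv : v.1.1 = el17 h₁ s₁ e) (hv' : v.2.1 = el17 h₂ s₂ e') :
    coset (Gst h₁ s₁ h₂ s₂) (sc17 h₁ s₁ i) (sc17 h₂ s₂ j) v = ((2 * ((if tb17 i e then (1 : ℤ)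
      else 0) * (if tb17 j e' then (1 : ℤ) else 0) + (if tb17 i (sw17 e) then (1 : ℤ) else 0) *
        (if tb17 j (sw17 e') then (1 : ℤ) else 0)) : ℤ) : k) := by
  classical
  set γ : Kl h₁ s₁ × Kl h₂ s₂ := (⟨s₁, mem_Kl h₁ s₁⟩, ⟨s₂, mem_Kl h₂ s₂⟩) with hγ
  have hγ2 : γ * γ = 1 := by
    apply Prod.ext
    · exact Subtype.ext H₁.s2
    · exact Subtype.ext H₂.s2
  have hγ1 : γ ≠ 1 := by
    intro h
    exact H₁.sne (congrArg (fun x : Kl h₁ s₁ × Kl h₂ s₂ => x.1.1) h)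
  have hG : Gst h₁ s₁ h₂ s₂ = Subgroup.zpowers γ := rfl
  let b : Bool → Gst h₁ s₁ h₂ s₂ := fun x => if x then ⟨γ, Subgroup.mem_zpowers γ⟩ else 1
  have hb : Function.Bijective b := by
    constructor
    · intro x y hxy
      cases x <;> cases y
      · rfl
      · exact absurd (congrArg Subtype.val hxy).symm hγ1
      · exact absurd (congrArg Subtype.val hxy) hγ1
      · rfl
    · rintro ⟨g, hg⟩
      rw [hG, mem_zp17 hγ2] at hg
      rcases hg with rfl | rfl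
      · exact ⟨false, rfl⟩
      · exact ⟨true, rfl⟩
  let B := Equiv.ofBijective b hb
  unfold coset
  rw [← finsum_comp_equiv (Equiv.prodCongr B B), finsum_eq_sum_of_fintype, Fintype.sum_prod_type]
  simp only [Fintype.sum_bool]
  have ev : ∀ (w : Kl h₁ s₁ × Kl h₂ s₂) (a a' : Fin 4), w.1.1 = el17 h₁ s₁ a →
      w.2.1 = el17 h₂ s₂ a' → (sc17 h₁ s₁ i).ext w.1 * (sc17 h₂ s₂ j).ext w.2 =
        (((if tb17 i a then (1 : ℤ) else 0) * (if tb17 j a' then (1 : ℤ) else 0) : ℤ) : k) := by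
    intro w a a' h1 h2
    rw [ext17 H₁ i a _ h1, ext17 H₂ j a' _ h2, Int.cast_mul]
  have t1 := ev (γ * v * γ) e e' (by
    change s₁ * v.1.1 * s₁ = _
    rw [hv, mul_assoc, el_s17 H₁, ← mul_assoc, H₁.s2, one_mul]) (by
    change s₂ * v.2.1 * s₂ = _
    rw [hv', mul_assoc, el_s17 H₂, ← mul_assoc, H₂.s2, one_mul])
  have t2 := ev (γ * v * 1) (sw17 e) (sw17 e') (by
    change s₁ * v.1.1 * 1 = _
    rw [hv, mul_one, sw_el17 H₁]) (by
    change s₂ * v.2.1 * 1 = _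
    rw [hv', mul_one, sw_el17 H₂])
  have t3 := ev (1 * v * γ) (sw17 e) (sw17 e') (by
    change 1 * v.1.1 * s₁ = _
    rw [hv, one_mul, el_s17 H₁, sw_el17 H₁]) (by
    change 1 * v.2.1 * s₂ = _
    rw [hv', one_mul, el_s17 H₂, sw_el17 H₂])
  have t4 := ev (1 * v * 1) e e' (by
    change 1 * v.1.1 * 1 = _
    rw [hv, one_mul, mul_one]) (by
    change 1 * v.2.1 * 1 = _
    rw [hv', one_mul, mul_one])
  refine (congrArg₂ (· + ·) (congrArg₂ (· + ·) t1 t2) (congrArg₂ (· + ·) t3 t4)).trans ?_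
  push_cast
  ring

private lemma mem_gst17 (H₁ : Hyp h₁ s₁) (H₂ : Hyp h₂ s₂) (e e' : Fin 4)
    (v : Kl h₁ s₁ × Kl h₂ s₂) (hv : v.1.1 = el17 h₁ s₁ e) (hv' : v.2.1 = el17 h₂ s₂ e') :
    v ∈ Gst h₁ s₁ h₂ s₂ ↔ (e = 0 ∧ e' = 0) ∨ (e = 1 ∧ e' = 1) := by
  have hγ2 : ((⟨s₁, mem_Kl h₁ s₁⟩, ⟨s₂, mem_Kl h₂ s₂⟩) : Kl h₁ s₁ × Kl h₂ s₂) *
      (⟨s₁, mem_Kl h₁ s₁⟩, ⟨s₂, mem_Kl h₂ s₂⟩) = 1 := by
    apply Prod.ext
    · exact Subtype.ext H₁.s2
    · exact Subtype.ext H₂.s2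
  unfold Gst
  rw [mem_zp17 hγ2]
  have hA : ∀ a a' : Fin 4, ∀ w : Kl h₁ s₁ × Kl h₂ s₂, w.1.1 = el17 h₁ s₁ a →
      w.2.1 = el17 h₂ s₂ a' → (v = w ↔ e = a ∧ e' = a') := by
    intro a a' w hw hw'
    constructor
    · rintro rfl
      exact ⟨inj17 H₁ (hv.symm.trans hw), inj17 H₂ (hv'.symm.trans hw')⟩
    · rintro ⟨rfl, rfl⟩
      exact Prod.ext (Subtype.ext (hv.trans hw.symm)) (Subtype.ext (hv'.trans hw'.symm))
  exact or_congr (hA 0 0 1 rfl rfl) (hA 1 1 _ rfl rfl)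

private lemma dec17 [CharZero k] (H₁ : Hyp h₁ s₁) (H₂ : Hyp h₂ s₂) :
    Decomposes (Gst h₁ s₁ h₂ s₂) (fun l : Fin 7 => sc17 h₁ s₁ (ixa17 l))
      (fun l : Fin 7 => sc17 h₂ s₂ (ixb17 l)) (fun _ : Fin 0 => sc17 h₁ s₁ 0)
      (fun _ : Fin 0 => sc17 h₂ s₂ 0) := by
  classical
  refine ⟨fun l => (cz17 l : k) / 8, fun _ => 0, fun _ => 0, fun v => ?_⟩
  obtain ⟨e, he⟩ := four17 H₁ v.1
  obtain ⟨e', he'⟩ := four17 H₂ v.2
  rw [Finset.univ_eq_empty (α := Fin 0), Finset.sum_empty, add_zero]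
  have h1 : ∀ l : Fin 7, (cz17 l : k) / 8 *
      coset (Gst h₁ s₁ h₂ s₂) (sc17 h₁ s₁ (ixa17 l)) (sc17 h₂ s₂ (ixb17 l)) v =
      (1 / 4 : k) * ((cz17 l * ((if tb17 (ixa17 l) e then (1 : ℤ) else 0) *
        (if tb17 (ixb17 l) e' then (1 : ℤ) else 0) +
        (if tb17 (ixa17 l) (sw17 e) then (1 : ℤ) else 0) *
        (if tb17 (ixb17 l) (sw17 e') then (1 : ℤ) else 0)) : ℤ) : k) := by
    intro l
    rw [coset17 H₁ H₂ _ _ e e' v he he']
    push_cast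
    ring
  rw [Finset.sum_congr rfl (fun l _ => h1 l), ← Finset.mul_sum, ← Int.cast_sum, id17]
  by_cases h2 : v ∈ Gst h₁ s₁ h₂ s₂
  · rw [if_pos h2, if_pos ((mem_gst17 H₁ H₂ e e' v he he').mp h2)]
    norm_num
  · rw [if_neg h2, if_neg (fun h3 => h2 ((mem_gst17 H₁ H₂ e e' v he he').mpr h3))]
    norm_num

end

/-- Voisin's conjecture for `(C₁ × C₂) / (s₁, s₂)`. -/
theorem quot_main {k : Type u} [Field k] [IsAlgClosed k] [CharZero k]
    {F₁ F₂ : Type u} [Field F₁] [Algebra k F₁] [Field F₂] [Algebra k F₂]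
    (hF₁ : IsFunctionField k F₁) (hF₂ : IsFunctionField k F₂)
    (h₁ s₁ : F₁ ≃ₐ[k] F₁) (h₂ s₂ : F₂ ≃ₐ[k] F₂) (H₁ : Hyp h₁ s₁) (H₂ : Hyp h₂ s₂)
    (p₁ q₁ p₂ q₂ : ℕ)
    (hp₁ : IsGenus k (IntermediateField.fixedField (Subgroup.zpowers s₁)) p₁)
    (hq₁ : IsGenus k (IntermediateField.fixedField (Subgroup.zpowers (s₁ * h₁))) q₁)
    (hp₂ : IsGenus k (IntermediateField.fixedField (Subgroup.zpowers s₂)) p₂)
    (hq₂ : IsGenus k (IntermediateField.fixedField (Subgroup.zpowers (s₂ * h₂))) q₂)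
    (n : ℕ) (hn : p₁ * p₂ + q₁ * q₂ < n)
    (a : Fin n → (quotSurface hF₁ hF₂ (Kl h₁ s₁) (Kl h₂ s₂) (Gst h₁ s₁ h₂ s₂)).Cycles)
    (ha : ∀ i, AlbaneseTrivial (curve hF₁) (curve hF₂)
      (pullCycle hF₁ hF₂ (Kl h₁ s₁) (Kl h₂ s₂) (Gst h₁ s₁ h₂ s₂) (a i))) :
    ∃ m : ℕ, 0 < m ∧ m • ∑ σ : Equiv.Perm (Fin n), ((Equiv.Perm.sign σ : ℤˣ) : ℤ) •
      extProd (fun i => a (σ i)) ∈
        ((quotSurface hF₁ hF₂ (Kl h₁ s₁) (Kl h₂ s₂) (Gst h₁ s₁ h₂ s₂)).pow n).Rat := by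
  have f1 := finite17 H₁
  have f2 := finite17 H₂
  have g1 := Fintype.ofFinite (Kl h₁ s₁)
  have g2 := Fintype.ofFinite (Kl h₂ s₂)
  have g3 := Fintype.ofFinite (Gst h₁ s₁ h₂ s₂)
  have ex : ∀ {F : Type u} [Field F] [Algebra k F] (hF : IsFunctionField k F) (h s : F ≃ₐ[k] F),
      ∃ g, IsGenus k (IntermediateField.fixedField (wt17 h s 0)) g := by
    intro F _ _ hF h s
    have : Finite (wt17 h s 0) := inferInstanceAs (Finite (⊥ : Subgroup (F ≃ₐ[k] F)))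
    exact FF.exists_genus (isFunctionField_fixed (wt17 h s 0) hF)
  obtain ⟨b₁, hb₁⟩ := ex hF₁ h₁ s₁
  obtain ⟨b₂, hb₂⟩ := ex hF₂ h₂ s₂
  have hg₁ : ∀ i, IsGenus k (IntermediateField.fixedField (wt17 h₁ s₁ i))
      ((![b₁, 0, p₁, q₁] : Fin 4 → ℕ) i) := by
    intro i
    fin_cases i
    · exact hb₁
    · exact H₁.rat
    · exact hp₁
    · exact hq₁
  have hg₂ : ∀ i, IsGenus k (IntermediateField.fixedField (wt17 h₂ s₂ i))
      ((![b₂, 0, p₂, q₂] : Fin 4 → ℕ) i) := by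
    intro i
    fin_cases i
    · exact hb₂
    · exact H₂.rat
    · exact hp₂
    · exact hq₂
  exact VP.descend hF₁ hF₂ (Kl h₁ s₁) (Kl h₂ s₂) (Gst h₁ s₁ h₂ s₂) n a
    (alternatingS hF₁ hF₂ (Gst h₁ s₁ h₂ s₂) (fun l : Fin 7 => sc17 h₁ s₁ (ixa17 l))
      (fun l : Fin 7 => sc17 h₂ s₂ (ixb17 l)) (fun l : Fin 0 => sc17 h₁ s₁ 0)
      (fun l : Fin 0 => sc17 h₂ s₂ 0) (dec17 H₁ H₂) _ _ _ _ (fun l => kind17 hg₁ (ixa17 l))
      (fun l => kind17 hg₂ (ixb17 l)) (fun _ => 0) (fun _ => 0) (fun _ => 0) (fun _ => 0)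
      (fun l => l.elim0) (fun l => l.elim0)
      (by
        rw [Finset.univ_eq_empty (α := Fin 0), Finset.sum_empty, add_zero]
        refine lt_of_eq_of_lt ?_ hn
        simp [Fin.sum_univ_succ, ixa17, ixb17])
      (fun i => pullCycle hF₁ hF₂ (Kl h₁ s₁) (Kl h₂ s₂) (Gst h₁ s₁ h₂ s₂) (a i)) ha
      (fun i g => pull_inv hF₁ hF₂ (Kl h₁ s₁) (Kl h₂ s₂) (Gst h₁ s₁ h₂ s₂) g.1 g.2 (a i)))

end Pool.Agent.Helper35.IR
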